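import Pool.Agent.R412.Quartic
import Pool.Agent.R412.IdelesQ

/-!
# A curve over `ℚ` with the splitting condition, with adelic points and with empty Brauer-Manin set

`X` is the smooth affine curve `z² = y⁴ + 1`, `y ≠ 0`, `z ≠ 0`, over `ℚ`: a closed subvariety of the
torus `𝔾_m × 𝔾_m`.

* (Splitting condition.) The function field of `X` is `F = ℚ(y)(√(y⁴ + 1))`. For a dense open subset
  `U` of `X` the étale fundamental group of the normal scheme `U` is `Gal(F_U/F)`, where `F_U ⊇ ℚ̄` is
  the union of the finite extensions of `F` (in an algebraic closure) which are unramified over `U`,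
  and `p_U` is the restriction `Gal(F_U/F) → Gal(ℚ̄/ℚ)`. The theorem gives a continuous splitting of
  `Gal(M/F) → Gal(ℚ̄/ℚ)` for ALL normal algebraic extensions `M` of `F` which contain `ℚ̄`. (It comes
  from the rational point `(0, 1)` of the projective model, which is not a point of `X`.)
* (Adelic points.) `X(𝔸) = {(y, z) ∈ 𝕀 × 𝕀 : z² = y⁴ + 1}`, where `𝕀 = 𝔾_m(𝔸)` is the group of ideles
  of `ℚ`, because `X` is closed in `𝔾_m × 𝔾_m`. This set is not empty.
* (Brauer-Manin set.) The functions `y` and `z` are invertible on `X`, so for every character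
  `χ : Gal(ℚ̄/ℚ) → ℚ/ℤ` there are the cyclic classes `(χ, y)` and `(χ, z)` in `Br(X)`. By class field
  theory the characters `χ` correspond to the characters of finite order `ψ` of the group of idele
  classes, and `∑_v inv_v (χ, y)(x_v)` is `ψ((y(x_v))_v)`, written multiplicatively. The theorem:
  for every adelic point of `X` there is a `ψ` with `ψ(y) ≠ 1` or `ψ(z) ≠ 1`. So no adelic
  point is orthogonal to `Br(X)`, and `X(𝔸)^Br` is empty.
-/

set_option autoImplicit false

namespace Pool.Agent.Results.MP_ad201b_nt.FermatCurveInTorus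

open Polynomial

/-! ## The splitting condition -/

/-- Let `M` be an extension of `F` and `i` an embedding of `E` in `M`. The map
`s : Gal(E/ℚ) → Gal(M/F)` is a splitting of the restriction from `M` to `E`: it is a continuous
homomorphism and the restriction of `s(σ)` to `E` is `σ`, for every `σ`. -/
structure IsSplitting {E F M : Type} [Field E] [Algebra ℚ E] [Field F] [Field M] [Algebra F M]
    (i : E →+* M) (s : (E ≃ₐ[ℚ] E) → (M ≃ₐ[F] M)) : Prop where
  continuous : Continuous s
  mul : ∀ σ τ : E ≃ₐ[ℚ] E, s (σ * τ) = s σ * s τ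
  restricts : ∀ (σ : E ≃ₐ[ℚ] E) (x : E), s σ (i x) = i (σ x)

/-- The splitting condition (in a strong form) for the function field `F` of a normal variety over
`ℚ`: for every normal algebraic extension `M` of `F` and every embedding `i` of an algebraic closure
`E` of `ℚ` in `M`, the restriction `Gal(M/F) → Gal(E/ℚ)` has a splitting. -/
def SplittingCondition (F : Type) [Field F] : Prop :=
  ∀ (E M : Type) [Field E] [Algebra ℚ E] [IsAlgClosure ℚ E] [Field M] [Algebra F M] [Normal F M]
    (i : E →+* M), ∃ s : (E ≃ₐ[ℚ] E) → (M ≃ₐ[F] M), IsSplitting i s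

/-- The polynomial `Z² - (y⁴ + 1)` over the field `ℚ(y)`. -/
noncomputable def poly : (RatFunc ℚ)[X] := X ^ 2 - C (RatFunc.X ^ 4 + 1)

instance poly_irreducible : Fact (Irreducible poly) := Pool.Agent.R412.quarticPoly_irreducible

/-- The function field `F = ℚ(y)(√(y⁴ + 1))` of the curve `X`. -/
abbrev FunctionField : Type := AdjoinRoot poly

/-! ## The adelic points -/

instance primeFact (p : Nat.Primes) : Fact (p : ℕ).Prime := ⟨p.2⟩

/-- The ideles of `ℚ`: the families of nonzero elements of `ℝ` and of the fields `ℚ_p` which are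
units (of absolute value one) at all but finitely many primes `p`. -/
structure Idele where
  /-- the real component -/
  atReal : ℝ
  /-- the component at the prime `p` -/
  atPrime : ∀ p : Nat.Primes, ℚ_[(p : ℕ)]
  real_ne_zero : atReal ≠ 0
  prime_ne_zero : ∀ p : Nat.Primes, atPrime p ≠ 0
  almost_unit : {p : Nat.Primes | ‖atPrime p‖ ≠ 1}.Finite

/-- The product of two ideles. -/
noncomputable def Idele.mul (x y : Idele) : Idele where
  atReal := x.atReal * y.atReal
  atPrime p := x.atPrime p * y.atPrime p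
  real_ne_zero := mul_ne_zero x.real_ne_zero y.real_ne_zero
  prime_ne_zero p := mul_ne_zero (x.prime_ne_zero p) (y.prime_ne_zero p)
  almost_unit := by
    refine (x.almost_unit.union y.almost_unit).subset ?_
    intro p hp
    by_contra h
    rw [Set.mem_union, not_or] at h
    obtain ⟨h1, h2⟩ := h
    simp only [Set.mem_ofPred_eq, ne_eq, not_not] at h1 h2
    apply hp
    rw [norm_mul, h1, h2, one_mul]

/-- The adelic points of the curve `X`: the pairs `(y, z)` of ideles with `z² = y⁴ + 1`. -/
def AdelicPoints : Set (Idele × Idele) :=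
  {P | P.2.atReal ^ 2 = P.1.atReal ^ 4 + 1 ∧
    ∀ p : Nat.Primes, (P.2.atPrime p) ^ 2 = (P.1.atPrime p) ^ 4 + 1}

/-- `ψ` is a character of finite order of the group of idele classes of `ℚ`: it is multiplicative,
it has finite order, it is trivial on the ideles given by the nonzero rational numbers, and it is
continuous, i.e. for some `N ≥ 1` it is trivial on the ideles which are positive at the real place
and units congruent to `1` modulo `N ℤ_p` at all primes `p`. -/
structure IsIdeleClassCharacter (ψ : Idele → ℂ) : Prop where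
  multiplicative : ∀ x y, ψ (x.mul y) = ψ x * ψ y
  finite_order : ∃ n : ℕ, 0 < n ∧ ∀ x, ψ x ^ n = 1
  rational : ∀ (q : ℚ) (x : Idele), x.atReal = q → (∀ p : Nat.Primes, x.atPrime p = q) → ψ x = 1
  continuous : ∃ N : ℕ, 0 < N ∧ ∀ x : Idele, 0 < x.atReal →
    (∀ p : Nat.Primes, ‖x.atPrime p‖ = 1 ∧ ‖x.atPrime p - 1‖ ≤ ‖(N : ℚ_[(p : ℕ)])‖) → ψ x = 1

/-! ## Proofs -/

theorem exists_normalization (x : Idele) : ∃ r : ℚˣ, 0 < x.atReal * ((r : ℚ) : ℝ) ∧
    ∀ p : Nat.Primes, ‖((r : ℚ) : ℚ_[(p : ℕ)])‖ = ‖x.atPrime p‖ := by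
  classical
  have hfin : {p : Nat.Primes | ‖x.atPrime p‖ ≠ 1}.Finite := x.almost_unit
  obtain ⟨r, hr, h⟩ := Pool.Agent.R412.exists_rat hfin.toFinset
    (fun p => Padic.valuation (x.atPrime p))
  have hnorm : ∀ p : Nat.Primes, ‖(r : ℚ_[(p : ℕ)])‖ = ‖x.atPrime p‖ := by
    intro p
    rw [h p (primeFact p)]
    split_ifs with h1
    · rw [Padic.norm_eq_zpow_neg_valuation (x.prime_ne_zero p)]
    · rw [Set.Finite.mem_toFinset] at h1
      simp only [Set.mem_ofPred_eq, ne_eq, not_not] at h1
      rw [h1]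
  rcases lt_or_gt_of_ne x.real_ne_zero with hx | hx
  · refine ⟨Units.mk0 (-r) (neg_ne_zero.2 hr.ne'), ?_, fun p => ?_⟩
    · have : (0 : ℝ) < r := by exact_mod_cast hr
      simp only [Units.val_mk0, Rat.cast_neg]
      nlinarith
    · simp only [Units.val_mk0, Rat.cast_neg, norm_neg]
      exact hnorm p
  · refine ⟨Units.mk0 r hr.ne', ?_, fun p => ?_⟩
    · have : (0 : ℝ) < r := by exact_mod_cast hr
      simp only [Units.val_mk0]
      positivity
    · simp only [Units.val_mk0]
      exact hnorm p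

/-- The rational part of an idele. -/
noncomputable def rpart (x : Idele) : ℚˣ := (exists_normalization x).choose

theorem rpart_pos (x : Idele) : 0 < x.atReal * ((rpart x : ℚ) : ℝ) :=
  (exists_normalization x).choose_spec.1

theorem rpart_norm (x : Idele) (p : Nat.Primes) :
    ‖((rpart x : ℚ) : ℚ_[(p : ℕ)])‖ = ‖x.atPrime p‖ :=
  (exists_normalization x).choose_spec.2 p

theorem rpart_unique (x : Idele) (r : ℚˣ) (h0 : 0 < x.atReal * ((r : ℚ) : ℝ))
    (h : ∀ p : Nat.Primes, ‖((r : ℚ) : ℚ_[(p : ℕ)])‖ = ‖x.atPrime p‖) :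
    rpart x = r := by
  have h1 : (rpart x : ℚ) / r = 1 := by
    apply Pool.Agent.R412.eq_one_of_norm
    · have h2 := rpart_pos x
      have h3 : 0 < (x.atReal * ((rpart x : ℚ) : ℝ)) * (x.atReal * ((r : ℚ) : ℝ)) := mul_pos h2 h0
      have h4 : 0 < ((rpart x : ℚ) : ℝ) * ((r : ℚ) : ℝ) := by
        by_contra hc
        have h5 : 0 ≤ x.atReal ^ 2 := sq_nonneg _
        nlinarith
      have h5 : (0 : ℚ) < (rpart x : ℚ) * r := by exact_mod_cast h4
      have h6 : (r : ℚ) ≠ 0 := r.ne_zero
      have h7 : (rpart x : ℚ) / r = (rpart x : ℚ) * r / r ^ 2 := by field_simp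
      rw [h7]
      positivity
    · intro p hp
      have h2 := rpart_norm x ⟨p, hp.out⟩
      have h3 := h ⟨p, hp.out⟩
      simp only at h2 h3
      have h4 : ‖((r : ℚ) : ℚ_[p])‖ ≠ 0 := by
        rw [norm_ne_zero_iff]
        exact_mod_cast r.ne_zero
      push_cast
      rw [norm_div]
      have h5 : ‖((rpart x : ℚ) : ℚ_[p])‖ = ‖((r : ℚ) : ℚ_[p])‖ := by
        rw [h3]; exact h2
      rw [h5, div_self h4]
  apply Units.ext
  exact (div_eq_one_iff_eq r.ne_zero).1 h1

theorem rpart_mul (x y : Idele) : rpart (x.mul y) = rpart x * rpart y := by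
  apply rpart_unique
  · have h1 := mul_pos (rpart_pos x) (rpart_pos y)
    have h2 : (x.mul y).atReal = x.atReal * y.atReal := rfl
    rw [h2]
    push_cast
    linarith
  · intro p
    have h2 : (x.mul y).atPrime p = x.atPrime p * y.atPrime p := rfl
    rw [h2]
    push_cast
    rw [norm_mul, norm_mul, rpart_norm, rpart_norm]

theorem norm_quot (p : Nat.Primes) (x : Idele) :
    ‖x.atPrime p / ((rpart x : ℚ) : ℚ_[(p : ℕ)])‖ = 1 := by
  rw [norm_div, rpart_norm, div_self]
  rw [norm_ne_zero_iff]
  exact x.prime_ne_zero p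

/-- The unit part of an idele at the prime `p`. -/
noncomputable def upart (p : Nat.Primes) (x : Idele) : ℤ_[(p : ℕ)]ˣ :=
  PadicInt.mkUnits (norm_quot p x)

theorem upart_coe (p : Nat.Primes) (x : Idele) : ((upart p x : ℤ_[(p : ℕ)]) : ℚ_[(p : ℕ)]) =
    x.atPrime p / ((rpart x : ℚ) : ℚ_[(p : ℕ)]) :=
  PadicInt.mkUnits_eq (norm_quot p x)

theorem upart_mul (p : Nat.Primes) (x y : Idele) : upart p (x.mul y) = upart p x * upart p y := by
  apply Units.ext
  apply Subtype.ext
  rw [Units.val_mul, PadicInt.coe_mul, upart_coe, upart_coe, upart_coe, rpart_mul]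
  have h2 : (x.mul y).atPrime p = x.atPrime p * y.atPrime p := rfl
  rw [h2]
  push_cast
  rw [mul_div_mul_comm]

/-- Ideles whose unit part is not trivial are detected by characters. -/
theorem exists_character (x : Idele) (p : Nat.Primes) (h : upart p x ≠ 1) :
    ∃ ψ : Idele → ℂ, IsIdeleClassCharacter ψ ∧ ψ x ≠ 1 := by
  obtain ⟨k, χ, hχ⟩ := Pool.Agent.R412.exists_char p _ h
  haveI : NeZero ((p : ℕ) ^ k) := ⟨pow_ne_zero _ p.2.ne_zero⟩
  refine ⟨fun x => ((χ (Units.map ((PadicInt.toZModPow k : ℤ_[(p : ℕ)] →+* ZMod ((p : ℕ) ^ k)) :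
    ℤ_[(p : ℕ)] →* ZMod ((p : ℕ) ^ k)) (upart p x)) : ℂˣ) : ℂ), ⟨?_, ?_, ?_, ?_⟩, ?_⟩
  · intro x y
    simp only [upart_mul, map_mul, Units.val_mul]
  · refine ⟨Nat.card (ZMod ((p : ℕ) ^ k))ˣ, Nat.card_pos, fun x => ?_⟩
    rw [← Units.val_pow_eq_pow_val, ← map_pow, pow_card_eq_one', map_one, Units.val_one]
  · intro q x h0 hp
    have hq0 : q ≠ 0 := by
      intro h1
      rw [h1, Rat.cast_zero] at h0
      exact x.real_ne_zero h0
    have h1 : rpart x = Units.mk0 q hq0 := by
      apply rpart_unique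
      · rw [h0]
        have : (q : ℝ) ≠ 0 := by exact_mod_cast hq0
        simp only [Units.val_mk0]
        exact mul_self_pos.2 this
      · intro p
        rw [hp p]
        rfl
    have h2 : upart p x = 1 := by
      apply Units.ext
      apply Subtype.ext
      rw [upart_coe, h1, hp p, Units.val_mk0, div_self]
      · simp
      · exact_mod_cast hq0
    simp only [h2, map_one, Units.val_one]
  · refine ⟨(p : ℕ) ^ k, Nat.pos_of_ne_zero (NeZero.ne _), fun x hx0 hx => ?_⟩
    have h1 : rpart x = 1 := by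
      apply rpart_unique
      · simpa using hx0
      · intro p
        rw [(hx p).1]
        simp
    have h2 : Units.map ((PadicInt.toZModPow k : ℤ_[(p : ℕ)] →+* ZMod ((p : ℕ) ^ k)) :
      ℤ_[(p : ℕ)] →* ZMod ((p : ℕ) ^ k)) (upart p x) = 1 := by
      apply Units.ext
      have h3 : ‖((upart p x : ℤ_[(p : ℕ)]) : ℚ_[(p : ℕ)]) - 1‖ ≤ ‖(((p : ℕ) ^ k : ℕ) : ℚ_[(p : ℕ)])‖ := by
        rw [upart_coe, h1]
        simpa using (hx p).2
      have h4 : (upart p x : ℤ_[(p : ℕ)]) - 1 ∈ RingHom.ker (PadicInt.toZModPow (p := (p : ℕ)) k) := by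
        rw [PadicInt.ker_toZModPow, ← PadicInt.norm_le_pow_iff_mem_span_pow, PadicInt.norm_def]
        refine le_trans (le_of_eq ?_) (h3.trans (le_of_eq ?_))
        · simp
        · push_cast
          rw [norm_pow, Padic.norm_p, zpow_neg, zpow_natCast, inv_pow]
      rw [RingHom.mem_ker, map_sub, map_one, sub_eq_zero] at h4
      exact h4
    simp only [h2, map_one, Units.val_one]
  · intro h1
    exact hχ (Units.ext h1)

theorem eq_rpart_of (x : Idele) (p : Nat.Primes) (h : upart p x = 1) :
    x.atPrime p = ((rpart x : ℚ) : ℚ_[(p : ℕ)]) := by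
  have h1 := upart_coe p x
  rw [h] at h1
  have h2 : ((rpart x : ℚ) : ℚ_[(p : ℕ)]) ≠ 0 := by exact_mod_cast (rpart x).ne_zero
  simp only [Units.val_one, PadicInt.coe_one] at h1
  exact ((div_eq_one_iff_eq h2).1 h1.symm)

theorem adelicPoints_nonempty : AdelicPoints.Nonempty := by
  classical
  have key : ∀ p : Nat.Primes, ∃ y z : ℚ_[(p : ℕ)], y ≠ 0 ∧ z ≠ 0 ∧ z ^ 2 = y ^ 4 + 1 ∧
    (41 < (p : ℕ) → ‖y‖ = 1 ∧ ‖z‖ = 1) := fun p => Pool.Agent.R412.local_point p
  choose y z hy hz h hn using key
  have hfin : {p : Nat.Primes | ¬ 41 < (p : ℕ)}.Finite := by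
    have h1 : (Set.Iic 41 : Set ℕ).Finite := Set.finite_Iic 41
    refine (h1.preimage (f := fun p : Nat.Primes => (p : ℕ)) ?_).subset ?_
    · exact fun a _ b _ hab => Subtype.ext hab
    · intro p hp
      simpa using hp
  have hs : Real.sqrt 2 ≠ 0 := by positivity
  refine ⟨(⟨1, y, one_ne_zero, hy, ?_⟩, ⟨Real.sqrt 2, z, hs, hz, ?_⟩), ?_, ?_⟩
  · refine hfin.subset fun p hp h1 => hp ?_
    exact (hn p h1).1
  · refine hfin.subset fun p hp h1 => hp ?_
    exact (hn p h1).2
  · simp only
    rw [Real.sq_sqrt (by norm_num)]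
    norm_num
  · intro p
    exact h p

theorem splitting : SplittingCondition FunctionField := by
  intro E M _ _ _ _ _ _ i
  obtain ⟨φ, hφ⟩ := Pool.Agent.R412.exists_hom (E := E)
  have : Algebra.IsAlgebraic FunctionField M := Normal.toIsAlgebraic
  have : IsAlgClosure FunctionField (AlgebraicClosure M) := 
    { isAlgClosed := inferInstance
      isAlgebraic := Algebra.IsAlgebraic.trans FunctionField M (AlgebraicClosure M) }
  obtain ⟨s, hs, hs'⟩ := Pool.Agent.R412.exists_section (F := FunctionField)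
    (Ω := AlgebraicClosure M) (E := E) φ hφ ((algebraMap M (AlgebraicClosure M)).comp i)
  have hr : ∀ (g : AlgebraicClosure M ≃ₐ[FunctionField] AlgebraicClosure M) (x : M),
      algebraMap M (AlgebraicClosure M) (AlgEquiv.restrictNormalHom (F := FunctionField)
        (K₁ := AlgebraicClosure M) M g x) = g (algebraMap M (AlgebraicClosure M) x) :=
    fun g x => AlgEquiv.restrictNormal_commutes g M x
  have hc : Continuous (AlgEquiv.restrictNormalHom (F := FunctionField)
      (K₁ := AlgebraicClosure M) M) := by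
    apply continuous_of_continuousAt_one
    rw [ContinuousAt, map_one]
    intro N hN
    rw [krullTopology_mem_nhds_one_iff] at hN
    obtain ⟨L, hL, hLN⟩ := hN
    rw [Filter.mem_map, krullTopology_mem_nhds_one_iff]
    refine ⟨L.map (IsScalarTower.toAlgHom FunctionField M (AlgebraicClosure M)),
      (L.equivMap (IsScalarTower.toAlgHom FunctionField M
        (AlgebraicClosure M))).toLinearEquiv.finiteDimensional, ?_⟩
    intro g hg
    apply hLN
    rw [SetLike.mem_coe, IntermediateField.mem_fixingSubgroup_iff] at hg ⊢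
    intro x hx
    apply (algebraMap M (AlgebraicClosure M)).injective
    rw [hr]
    exact hg _ ⟨x, hx, rfl⟩
  refine ⟨fun σ => AlgEquiv.restrictNormalHom (F := FunctionField)
    (K₁ := AlgebraicClosure M) M (s σ), hc.comp hs, ?_, ?_⟩
  · intro σ τ
    simp only [map_mul]
  · intro σ x
    apply (algebraMap M (AlgebraicClosure M)).injective
    rw [hr]
    exact hs' σ x

/-- **The curve `z² = y⁴ + 1`, `y z ≠ 0`, over `ℚ`**: (1) its function field `F` satisfies the
splitting condition, for the Galois groups of all normal extensions `M ⊇ ℚ̄` of `F`; (2) it has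
adelic points; (3) for every adelic point `(y, z)` there is a character of finite order of the
group of idele classes which is not trivial at `y` or at `z`. -/
theorem result :
    SplittingCondition FunctionField ∧ AdelicPoints.Nonempty ∧
    ∀ P ∈ AdelicPoints, ∃ ψ : Idele → ℂ, IsIdeleClassCharacter ψ ∧ (ψ P.1 ≠ 1 ∨ ψ P.2 ≠ 1) := by
  refine ⟨splitting, adelicPoints_nonempty, ?_⟩
  rintro ⟨y, z⟩ ⟨h0, h⟩
  by_contra hcon
  have hy : ∀ p, upart p y = 1 := by
    intro p
    by_contra hp
    obtain ⟨ψ, h1, h2⟩ := exists_character y p hp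
    exact hcon ⟨ψ, h1, Or.inl h2⟩
  have hz : ∀ p, upart p z = 1 := by
    intro p
    by_contra hp
    obtain ⟨ψ, h1, h2⟩ := exists_character z p hp
    exact hcon ⟨ψ, h1, Or.inr h2⟩
  have h2 := h ⟨2, Nat.prime_two⟩
  rw [eq_rpart_of y _ (hy _), eq_rpart_of z _ (hz _)] at h2
  have h3 : ((rpart z : ℚ) ^ 2) = (rpart y : ℚ) ^ 4 + 1 := by exact_mod_cast h2
  exact Pool.Agent.R412.no_rational_point _ _ (rpart y).ne_zero h3

end Pool.Agent.Results.MP_ad201b_nt.FermatCurveInTorus
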